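import Pool.Agent.L0h45.LR.Stm

set_option autoImplicit false

/-!
# Project LR, module EQ
-/

open Finset

namespace Pool.Agent.L0h44.LR

open Pool.Agent.L0h45.LR

theorem ex_add (a b : ℝ) : ex (a + b) = ex a * ex b := by
  unfold ex
  rw [← Complex.exp_add]
  congr 1
  push_cast
  ring

theorem ex_int (n : ℤ) : ex (n : ℝ) = 1 := by
  unfold ex
  rw [Complex.exp_eq_one_iff]
  exact ⟨n, by push_cast; ring⟩

theorem ex_eq_one {t : ℝ} (h : ex t = 1) : ∃ n : ℤ, t = n := by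
  unfold ex at h
  rw [Complex.exp_eq_one_iff] at h
  obtain ⟨n, hn⟩ := h
  refine ⟨n, ?_⟩
  have h1 : (2 * Real.pi * Complex.I : ℂ) ≠ 0 := by
    simp [Real.pi_ne_zero, Complex.I_ne_zero]
  have h2 : (t : ℂ) * (2 * Real.pi * Complex.I) = (n : ℂ) * (2 * Real.pi * Complex.I) := by
    rw [← hn]; ring
  have h3 := mul_right_cancel₀ h1 h2
  exact_mod_cast h3

theorem norm_ex (t : ℝ) : ‖ex t‖ = 1 := by
  unfold ex
  have : (2 * Real.pi * t * Complex.I : ℂ) = ((2 * Real.pi * t : ℝ) : ℂ) * Complex.I := by push_cast; ring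
  rw [this, Complex.norm_exp_ofReal_mul_I]

theorem ex_nat_mul (h : ℕ) (t : ℝ) : ex (h * t) = ex t ^ h := by
  unfold ex
  rw [← Complex.exp_nat_mul]
  congr 1
  push_cast
  ring

theorem orth {x : ℕ} (hx : 1 ≤ x) (N : ℤ) :
    ∑ h ∈ range x, ex (((h * N : ℤ) : ℝ) / x) = if (x : ℤ) ∣ N then (x : ℂ) else 0 := by
  have hx0 : (x : ℝ) ≠ 0 := by positivity
  have h1 : ∀ h ∈ range x, ex (((h * N : ℤ) : ℝ) / x) = ex ((N : ℝ) / x) ^ h := by
    intro h _
    rw [← ex_nat_mul]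
    congr 1
    push_cast
    ring
  rw [sum_congr rfl h1]
  split_ifs with hd
  · obtain ⟨m, hm⟩ := hd
    have h2 : (N : ℝ) / x = (m : ℤ) := by
      rw [hm]
      push_cast
      field_simp
    rw [h2, ex_int]
    simp
  · have h3 : ex ((N : ℝ) / x) ≠ 1 := by
      intro h
      obtain ⟨m, hm⟩ := ex_eq_one h
      apply hd
      refine ⟨m, ?_⟩
      rw [div_eq_iff hx0] at hm
      have : (N : ℝ) = ((x : ℤ) * m : ℤ) := by rw [hm]; push_cast; ring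
      exact_mod_cast this
    have h4 : ex ((N : ℝ) / x) ^ x = 1 := by
      rw [← ex_nat_mul]
      have : (x : ℝ) * ((N : ℝ) / x) = (N : ℤ) := by field_simp
      rw [this, ex_int]
    have h5 := geom_sum_mul (ex ((N : ℝ) / x)) x
    rw [h4, sub_self] at h5
    exact (mul_eq_zero.1 h5).resolve_right (sub_ne_zero.2 h3)

theorem dvd_iff {x : ℕ} {k : ℤ} {x' : ℕ} {k' : ℤ} {g : ℕ} (hg : 1 ≤ g) (hx : x = g * x') (hk : k = g * k')
    (hc : IsCoprime (x' : ℤ) k') (h : ℕ) : (x : ℤ) ∣ h * k ↔ x' ∣ h := by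
  rw [hx, hk]
  have hg0 : (g : ℤ) ≠ 0 := by positivity
  push_cast
  rw [show (h : ℤ) * (g * k') = g * (h * k') by ring, mul_dvd_mul_iff_left hg0]
  constructor
  · intro h1
    exact_mod_cast hc.dvd_of_dvd_mul_right h1
  · intro h1
    exact Dvd.dvd.mul_right (by exact_mod_cast h1) _

/-- the part of the frequencies with `x ∣ h k` -/
theorem orth' {x : ℕ} (hx : 1 ≤ x) (k N : ℤ) :
    ∑ h ∈ (range x).filter (fun h : ℕ => (x : ℤ) ∣ h * k), ex (((h * N : ℤ) : ℝ) / x) =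
      if (Int.gcd x k : ℤ) ∣ N then (Int.gcd x k : ℂ) else 0 := by
  have hg : 1 ≤ Int.gcd x k := Int.gcd_pos_of_ne_zero_left _ (by positivity)
  obtain ⟨g, hgd⟩ : ∃ g, g = Int.gcd x k := ⟨_, rfl⟩
  rw [← hgd] at hg ⊢
  have hgx : (g : ℤ) ∣ x := by rw [hgd]; exact Int.gcd_dvd_left _ _
  have hgk : (g : ℤ) ∣ k := by rw [hgd]; exact Int.gcd_dvd_right _ _
  have hgx' : g ∣ x := by exact_mod_cast hgx
  obtain ⟨x', hx'⟩ := hgx'
  obtain ⟨k', hk'⟩ := hgk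
  have hx'0 : 1 ≤ x' := by
    rcases Nat.eq_zero_or_pos x' with h | h
    · rw [h, mul_zero] at hx'; omega
    · exact h
  have hc : IsCoprime (x' : ℤ) k' := by
    rw [Int.isCoprime_iff_gcd_eq_one]
    have h1 : Int.gcd (g * x' : ℤ) (g * k') = g * Int.gcd x' k' := by
      rw [Int.gcd_mul_left]
      simp
    have h2 : Int.gcd x k = Int.gcd (g * x' : ℤ) (g * k') := by
      rw [hk', hx']
      push_cast
      rfl
    rw [← hgd, h1] at h2
    have : g * Int.gcd x' k' = g * 1 := by rw [← h2, mul_one]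
    exact Nat.eq_of_mul_eq_mul_left (by omega) this
  rw [← orth hg N]
  symm
  apply sum_bij (fun j _ => x' * j)
  · intro j hj
    rw [mem_range] at hj
    rw [mem_filter, mem_range, dvd_iff hg hx' hk' hc]
    refine ⟨?_, dvd_mul_right _ _⟩
    rw [hx', mul_comm g x']
    exact Nat.mul_lt_mul_of_pos_left hj (by omega)
  · intro a _ b _ h
    exact Nat.eq_of_mul_eq_mul_left (by omega) h
  · intro h hh
    rw [mem_filter, mem_range, dvd_iff hg hx' hk' hc] at hh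
    obtain ⟨j, hj⟩ := hh.2
    refine ⟨j, ?_, hj.symm⟩
    rw [mem_range]
    have h1 := hh.1
    rw [hj, hx', mul_comm g x'] at h1
    exact Nat.lt_of_mul_lt_mul_left h1
  · intro j _
    congr 1
    rw [hx']
    have h1 : (x' : ℝ) ≠ 0 := by positivity
    have h2 : (g : ℝ) ≠ 0 := by positivity
    push_cast
    field_simp

theorem dn_pos {x : ℕ} (hx : 1 ≤ x) {m : ℤ} (h : ¬ (x : ℤ) ∣ m) : 0 < dn ((m : ℝ) / x) := by
  unfold dn
  rw [abs_pos, sub_ne_zero]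
  intro h1
  apply h
  have hx0 : (x : ℝ) ≠ 0 := by positivity
  rw [div_eq_iff hx0] at h1
  refine ⟨round ((m : ℝ) / x), ?_⟩
  have : (m : ℝ) = ((x : ℤ) * round ((m : ℝ) / x) : ℤ) := by
    push_cast
    linarith
  exact_mod_cast this

theorem t_EQ (hG : S_GEO) (hW : S_WEY) (hS : S_EQS) : S_EQ := by
  classical
  intro L x A B k e u s n t hx hxL hnL hA
  have hx0 : (0 : ℝ) < x := by positivity
  have hL1 : 1 ≤ L := le_trans (by exact_mod_cast hx) hxL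
  have hlogL : 0 ≤ Real.log L := Real.log_nonneg hL1
  obtain ⟨P, hP⟩ : ∃ P, P = (Ioc u (u + n)) ×ˢ (Ioc s (s + t)) := ⟨_, rfl⟩
  obtain ⟨N, hN⟩ : ∃ N : ℤ × ℤ → ℤ, N = fun z => A * z.1 ^ 2 + B * z.1 + k * z.2 + e := ⟨_, rfl⟩
  obtain ⟨cnt, hcnt⟩ : ∃ cnt, cnt = (P.filter (fun z : ℤ × ℤ => (x : ℤ) ∣ N z)).card := ⟨_, rfl⟩
  obtain ⟨cg, hcg⟩ : ∃ cg, cg = ((Ioc u (u + n)).filter
    (fun γ : ℤ => (Int.gcd x k : ℤ) ∣ A * γ ^ 2 + B * γ + e)).card := ⟨_, rfl⟩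
  obtain ⟨S, hSd⟩ : ∃ S : ℕ → ℂ, S = fun h : ℕ => ∑ z ∈ P, ex (((h * N z : ℤ) : ℝ) / x) := ⟨_, rfl⟩
  obtain ⟨Sγ, hSγ⟩ : ∃ Sγ : ℕ → ℂ, Sγ = fun h : ℕ => ∑ γ ∈ Ioc u (u + n), ex (((h * (A * γ ^ 2 + B * γ) : ℤ) : ℝ) / x) :=
    ⟨_, rfl⟩
  obtain ⟨Sζ, hSζ⟩ : ∃ Sζ : ℕ → ℂ, Sζ = fun h : ℕ => ∑ ζ ∈ Ioc s (s + t), ex ((((h * k : ℤ) : ℝ) / x) * ζ) := ⟨_, rfl⟩
  have key : (x : ℂ) * cnt = ∑ h ∈ range x, S h := by
    rw [hSd]
    simp only
    rw [sum_comm]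
    have h1 : ∀ z ∈ P, ∑ h ∈ range x, ex (((h * N z : ℤ) : ℝ) / x) = if (x : ℤ) ∣ N z then (x : ℂ) else 0 :=
      fun z _ => orth hx (N z)
    rw [sum_congr rfl h1, ← sum_filter, sum_const, ← hcnt, nsmul_eq_mul, mul_comm]
  have hfac : ∀ h, S h = ex (((h * e : ℤ) : ℝ) / x) * Sγ h * Sζ h := by
    intro h
    rw [hSd, hSγ, hSζ]
    simp only
    rw [mul_assoc, sum_mul_sum, mul_sum, hP, sum_product]
    apply sum_congr rfl
    intro γ _
    rw [mul_sum]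
    apply sum_congr rfl
    intro ζ _
    rw [← ex_add, ← ex_add, hN]
    congr 1
    push_cast
    ring
  have hsplit : ∑ h ∈ range x, S h = ∑ h ∈ (range x).filter (fun h : ℕ => (x : ℤ) ∣ h * k), S h +
      ∑ h ∈ (range x).filter (fun h : ℕ => ¬ (x : ℤ) ∣ h * k), S h := (sum_filter_add_sum_filter_not _ _ _).symm
  -- the first part
  have hp1 : ∑ h ∈ (range x).filter (fun h : ℕ => (x : ℤ) ∣ h * k), S h = (t : ℂ) * ((Int.gcd x k : ℂ) * cg) := by
    have h1 : ∀ h ∈ (range x).filter (fun h : ℕ => (x : ℤ) ∣ h * k), S h =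
        (t : ℂ) * ∑ γ ∈ Ioc u (u + n), ex (((h * (A * γ ^ 2 + B * γ + e) : ℤ) : ℝ) / x) := by
      intro h hh
      rw [mem_filter] at hh
      rw [hfac, hSζ, hSγ]
      simp only
      have h2 : ∀ ζ ∈ Ioc s (s + t), ex ((((h * k : ℤ) : ℝ) / x) * ζ) = 1 := by
        intro ζ _
        obtain ⟨m, hm⟩ := hh.2
        have : (((h * k : ℤ) : ℝ) / x) * ζ = ((m * ζ : ℤ) : ℝ) := by
          rw [hm]
          push_cast
          field_simp
        rw [this, ex_int]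
      rw [sum_congr rfl h2, sum_const, Int.card_Ioc, add_sub_cancel_left, Int.toNat_natCast, nsmul_eq_mul, mul_one,
        mul_comm, mul_sum]
      congr 1
      apply sum_congr rfl
      intro γ _
      rw [← ex_add]
      congr 1
      push_cast
      ring
    rw [sum_congr rfl h1, ← mul_sum, sum_comm]
    congr 1
    have h3 : ∀ γ ∈ Ioc u (u + n), ∑ h ∈ (range x).filter (fun h : ℕ => (x : ℤ) ∣ h * k),
        ex (((h * (A * γ ^ 2 + B * γ + e) : ℤ) : ℝ) / x) =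
        if (Int.gcd x k : ℤ) ∣ A * γ ^ 2 + B * γ + e then (Int.gcd x k : ℂ) else 0 := fun γ _ => orth' hx k _
    rw [sum_congr rfl h3, ← sum_filter, sum_const, ← hcg, nsmul_eq_mul, mul_comm]
  -- the second part
  have hp2 : ‖∑ h ∈ (range x).filter (fun h : ℕ => ¬ (x : ℤ) ∣ h * k), S h‖ ≤
      4 * (L / √(x : ℝ)) * √(|(A : ℝ)| * (1 + Real.log L)) * (x * (1 + Real.log x) * tn x) := by
    refine (norm_sum_le _ _).trans ?_
    refine le_trans ?_ (mul_le_mul_of_nonneg_left (hS x k hx) (by positivity))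
    rw [mul_sum]
    apply sum_le_sum
    intro h hh
    rw [mem_filter] at hh
    have hdn := dn_pos hx hh.2
    rw [hfac, norm_mul, norm_mul, norm_ex, one_mul]
    have h4 : ‖Sγ h‖ ≤ 4 * (L / √(x : ℝ)) * √(|(A : ℝ)| * (1 + Real.log L) * (Int.gcd h x : ℝ)) := by
      rw [hSγ]
      exact hW L x A B h u n hx hxL hnL hA
    have h5 : ‖Sζ h‖ ≤ 1 / (2 * dn (((h * k : ℤ) : ℝ) / x)) := by
      rw [hSζ]
      exact hG _ s t hdn
    have h6 : √(|(A : ℝ)| * (1 + Real.log L) * (Int.gcd h x : ℝ)) =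
        √(|(A : ℝ)| * (1 + Real.log L)) * √(Nat.gcd h x : ℝ) := by
      rw [Real.sqrt_mul (by positivity)]
      congr 2
    rw [h6] at h4
    calc ‖Sγ h‖ * ‖Sζ h‖ ≤ (4 * (L / √(x : ℝ)) * (√(|(A : ℝ)| * (1 + Real.log L)) * √(Nat.gcd h x : ℝ))) *
          (1 / (2 * dn (((h * k : ℤ) : ℝ) / x))) := mul_le_mul h4 h5 (norm_nonneg _) (by positivity)
      _ = 4 * (L / √(x : ℝ)) * √(|(A : ℝ)| * (1 + Real.log L)) *
          (√(Nat.gcd h x : ℝ) / (2 * dn (((h * k : ℤ) : ℝ) / x))) := by ring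
  have hfin : (x : ℝ) * cnt ≤ (t : ℝ) * ((Int.gcd x k : ℝ) * cg) +
      4 * (L / √(x : ℝ)) * √(|(A : ℝ)| * (1 + Real.log L)) * (x * (1 + Real.log x) * tn x) := by
    have h7 : (x : ℝ) * cnt = ‖(x : ℂ) * cnt‖ := by
      rw [norm_mul, Complex.norm_natCast, Complex.norm_natCast]
    rw [h7, key, hsplit, hp1]
    refine (norm_add_le _ _).trans (add_le_add (le_of_eq ?_) hp2)
    rw [norm_mul, norm_mul, Complex.norm_natCast, Complex.norm_natCast, Complex.norm_natCast]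
  have hlogx : Real.log x ≤ Real.log L := Real.log_le_log hx0 hxL
  have hlogx0 : 0 ≤ Real.log x := Real.log_nonneg (by exact_mod_cast hx)
  have h8 : √(|(A : ℝ)| * (1 + Real.log L)) * (1 + Real.log x) ≤ √|(A : ℝ)| * (1 + Real.log L) ^ 2 := by
    rw [Real.sqrt_mul (abs_nonneg _), mul_assoc, pow_two]
    apply mul_le_mul_of_nonneg_left _ (Real.sqrt_nonneg _)
    apply mul_le_mul _ (by linarith) (by linarith) (by linarith)
    rw [Real.sqrt_le_left (by linarith)]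
    nlinarith
  have h9 : 4 * (L / √(x : ℝ)) * √(|(A : ℝ)| * (1 + Real.log L)) * (x * (1 + Real.log x) * tn x) ≤
      x * (4 * (L / √(x : ℝ)) * √|(A : ℝ)| * (1 + Real.log L) ^ 2 * tn x) := by
    have e1 : 4 * (L / √(x : ℝ)) * √(|(A : ℝ)| * (1 + Real.log L)) * (x * (1 + Real.log x) * tn x) =
        (4 * (L / √(x : ℝ)) * x * tn x) * (√(|(A : ℝ)| * (1 + Real.log L)) * (1 + Real.log x)) := by ring
    have e2 : (x : ℝ) * (4 * (L / √(x : ℝ)) * √|(A : ℝ)| * (1 + Real.log L) ^ 2 * tn x) =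
        (4 * (L / √(x : ℝ)) * x * tn x) * (√|(A : ℝ)| * (1 + Real.log L) ^ 2) := by ring
    rw [e1, e2]
    exact mul_le_mul_of_nonneg_left h8 (by positivity)
  have h10 : (x : ℝ) * cnt ≤ x * ((Int.gcd x k : ℝ) / x * t * cg +
      4 * (L / √(x : ℝ)) * √|(A : ℝ)| * (1 + Real.log L) ^ 2 * tn x) := by
    refine (hfin.trans (add_le_add_right h9 _)).trans (le_of_eq ?_)
    field_simp
  have h11 := le_of_mul_le_mul_left h10 hx0
  rw [hcnt, hcg, hP, hN] at h11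
  exact h11

end Pool.Agent.L0h44.LR
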